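import Pool.Agent.H36.PMed

open Pool.Agent.H38.NP Pool.Agent.H36.PMed

theorem Pool.Agent.Results.MP_3853ed_lc.Hard.result :
    NPHardOn
      (fun p : ℕ × List (List ℕ) × ℕ => ∀ L ∈ p.2.1, L.length = p.1)
      (fun p => ∃ Y : Setoid (Fin p.1), (p.2.1.map fun L => d (part p.1 L) Y).sum ≤ p.2.2) :=
  hard.npHardOn
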